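import Pool.Agent.Q35.TT.Stm3
import Pool.Agent.Q237.TT.PRO

/-!
# Project TT (helper35): the product of the local inequalities in `n` variables (job PRN, helper153)
-/

set_option autoImplicit false

open Height AdmissibleAbsValues Function

namespace Pool.Agent.Q153.TT

open Pool.Agent.Q237.TT (fms_iSup fms_max)

theorem map_prod_prod {α β : Type*} (s : Multiset α) (t : Finset β) (f : α → β → ℝ) :
    (s.map fun a => ∏ b ∈ t, f a b).prod = ∏ b ∈ t, (s.map fun a => f a b).prod := by
  induction s using Multiset.induction_on with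
  | empty => simp
  | cons a s ih =>
    simp only [Multiset.map_cons, Multiset.prod_cons]
    rw [ih, Finset.prod_mul_distrib]

section
variable {K : Type*} [Field K] [AdmissibleAbsValues K]

theorem fms_prod {n : ℕ} (z : Fin n → K) (a : Fin n → ℕ) (t : Finset (Fin n)) :
    (fun v : nonarchAbsVal (K := K) ↦ ∏ j ∈ t, max 1 (v.val (z j)) ^ a j).HasFiniteMulSupport := by
  classical
  induction t using Finset.induction_on with
  | empty => simp [HasFiniteMulSupport]
  | insert j t hj ih =>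
    have e : (fun v : nonarchAbsVal (K := K) ↦ ∏ i ∈ insert j t, max 1 (v.val (z i)) ^ a i) =
        (fun v : nonarchAbsVal (K := K) ↦ max 1 (v.val (z j))) ^ a j *
          fun v : nonarchAbsVal (K := K) ↦ ∏ i ∈ t, max 1 (v.val (z i)) ^ a i := by
      funext v
      rw [Finset.prod_insert hj]
      rfl
    rw [e]
    exact ((fms_max (z j)).pow (a j)).mul ih

/-- the product of the local inequalities -/
theorem prn_aux (C : AbsoluteValue K ℝ → ℝ) (hC : ∀ v, 1 ≤ C v)
    (hf : {v : AbsoluteValue K ℝ | v ∈ nonarchAbsVal (K := K) ∧ C v ≠ 1}.Finite) :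
    ∃ D : ℝ, 0 < D ∧ ∀ (ι : Type) [Finite ι] [Nonempty ι] (n : ℕ) (y : ι → K) (u : K)
      (z : Fin n → K) (a : Fin n → ℕ) (N : ℝ), y ≠ 0 → u ≠ 0 → 1 ≤ N →
      (∀ v ∈ archAbsVal (K := K), ∀ i, v (y i) ≤ C v * N * v u * ∏ j, max 1 (v (z j)) ^ a j) →
      (∀ v ∈ nonarchAbsVal (K := K), ∀ i, v (y i) ≤ C v * v u * ∏ j, max 1 (v (z j)) ^ a j) →
      mulHeight y ≤ D * N ^ totalWeight K * ∏ j, mulHeight₁ (z j) ^ a j := by
  have hCf : (fun v : nonarchAbsVal (K := K) ↦ C v.val).HasFiniteMulSupport := by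
    refine (hf.preimage (f := fun v : nonarchAbsVal (K := K) ↦ v.val)
      Subtype.val_injective.injOn).subset ?_
    intro v hv
    exact ⟨v.2, hv⟩
  refine ⟨((archAbsVal (K := K)).map C).prod * ∏ᶠ v : nonarchAbsVal (K := K), C v.val, ?_, ?_⟩
  · have h1 : 1 ≤ ((archAbsVal (K := K)).map C).prod := Multiset.one_le_prod_map fun v _ ↦ hC v
    have h2 : 1 ≤ ∏ᶠ v : nonarchAbsVal (K := K), C v.val := one_le_finprod fun v ↦ hC v.val
    exact mul_pos (by linarith) (by linarith)
  intro ι _ _ n y u z a N hy hu hN h1 h2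
  rw [mulHeight_eq hy]
  have hu' := product_formula hu
  have e1 : (archAbsVal.map fun v : AbsoluteValue K ℝ ↦ ⨆ i, v (y i)).prod ≤
      (archAbsVal.map fun v : AbsoluteValue K ℝ ↦
        C v * N * v u * ∏ j, max 1 (v (z j)) ^ a j).prod := by
    refine Multiset.prod_map_le_prod_map₀ _ _
      (fun v _ ↦ Real.iSup_nonneg_of_nonnegHomClass v _) fun v hv ↦ ciSup_le fun i ↦ h1 v hv i
  have e2 : (∏ᶠ v : nonarchAbsVal (K := K), ⨆ i, v.val (y i)) ≤
      ∏ᶠ v : nonarchAbsVal (K := K),
        (C v.val * v.val u * ∏ j, max 1 (v.val (z j)) ^ a j) := by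
    refine finprod_le_finprod (fms_iSup hy)
      (fun v ↦ Real.iSup_nonneg_of_nonnegHomClass v.val _) ?_
      (fun v ↦ ciSup_le fun i ↦ h2 v.val v.2 i)
    exact (hCf.mul (hasFiniteMulSupport hu)).mul (fms_prod z a Finset.univ)
  have e3 : (archAbsVal.map fun v : AbsoluteValue K ℝ ↦
        C v * N * v u * ∏ j, max 1 (v (z j)) ^ a j).prod =
      ((archAbsVal (K := K)).map C).prod * N ^ totalWeight K * (archAbsVal.map (· u)).prod *
        ∏ j, (archAbsVal.map fun v : AbsoluteValue K ℝ ↦ max (v (z j)) 1).prod ^ a j := by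
    rw [Multiset.prod_map_mul, Multiset.prod_map_mul, Multiset.prod_map_mul, map_prod_prod,
      Multiset.map_const', Multiset.prod_replicate]
    congr 1
    refine Finset.prod_congr rfl fun j _ => ?_
    rw [Multiset.prod_map_pow]
    simp only [max_comm (1 : ℝ)]
  have e4 : (∏ᶠ v : nonarchAbsVal (K := K),
        (C v.val * v.val u * ∏ j, max 1 (v.val (z j)) ^ a j)) =
      (∏ᶠ v : nonarchAbsVal (K := K), C v.val) * (∏ᶠ v : nonarchAbsVal (K := K), v.val u) *
        ∏ j, (∏ᶠ v : nonarchAbsVal (K := K), max (v.val (z j)) 1) ^ a j := by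
    have g1 := finprod_mul_distrib (hCf.mul (hasFiniteMulSupport hu)) (fms_prod z a Finset.univ)
    have g3 := finprod_mul_distrib hCf (hasFiniteMulSupport hu)
    simp only [Pi.mul_apply] at g1 g3
    rw [g1, g3, finprod_prod_comm]
    · congr 1
      refine Finset.prod_congr rfl fun j _ => ?_
      have g4 := finprod_pow (fms_max (z j)) (a j)
      rw [← g4]
      simp only [max_comm (1 : ℝ)]
    · intro j _
      exact (fms_max (z j)).pow (a j)
  have e5 : 0 ≤ ∏ᶠ v : nonarchAbsVal (K := K), ⨆ i, v.val (y i) :=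
    finprod_nonneg fun v ↦ Real.iSup_nonneg_of_nonnegHomClass v.val _
  have e6 : 0 ≤ (archAbsVal.map fun v : AbsoluteValue K ℝ ↦
        C v * N * v u * ∏ j, max 1 (v (z j)) ^ a j).prod := by
    refine Multiset.prod_map_nonneg fun v _ ↦ ?_
    have := hC v
    positivity
  calc _ ≤ _ := mul_le_mul e1 e2 e5 e6
    _ = _ := by
      rw [e3, e4]
      have e7 : ∏ j, mulHeight₁ (z j) ^ a j =
          (∏ j, (archAbsVal.map fun v : AbsoluteValue K ℝ ↦ max (v (z j)) 1).prod ^ a j) *
          ∏ j, (∏ᶠ v : nonarchAbsVal (K := K), max (v.val (z j)) 1) ^ a j := by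
        rw [← Finset.prod_mul_distrib]
        refine Finset.prod_congr rfl fun j _ => ?_
        rw [mulHeight₁_eq, mul_pow]
      rw [e7]
      linear_combination (((archAbsVal (K := K)).map C).prod * N ^ totalWeight K *
        (∏ j, (archAbsVal.map fun v : AbsoluteValue K ℝ ↦ max (v (z j)) 1).prod ^ a j) *
        (∏ᶠ v : nonarchAbsVal (K := K), C v.val) *
        (∏ j, (∏ᶠ v : nonarchAbsVal (K := K), max (v.val (z j)) 1) ^ a j)) * hu'

end

/-- PRN: the product of the local inequalities. -/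
theorem prn : Pool.Agent.Q35.TT.S_PRN := by
  intro K _ _ C hC hf
  exact prn_aux C hC hf

end Pool.Agent.Q153.TT
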